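import Mathlib

namespace Pool.Agent.Results.MP_8ac8bf_al.Counterexample

open Module

/-- `A` is diagonalizable and its eigenspaces admit an ordering `V_0, …, V_d` with
`B V_i ⊆ V_{i-1} + V_i + V_{i+1}`. -/
def Tridiag {K V : Type*} [Field K] [AddCommGroup V] [Module K V] (A B : End K V) : Prop :=
  (⨆ μ, A.eigenspace μ) = ⊤ ∧ ∃ (d : ℕ) (θ : Fin (d + 1) → K), Function.Injective θ ∧
    (∀ μ, A.HasEigenvalue μ ↔ μ ∈ Set.range θ) ∧
    ∀ i, (A.eigenspace (θ i)).map B ≤
      ⨆ j : {j : Fin (d + 1) // j.1 ≤ i.1 + 1 ∧ i.1 ≤ j.1 + 1}, A.eigenspace (θ j)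

/-- Tridiagonal pair. -/
def IsTDPair {K V : Type*} [Field K] [AddCommGroup V] [Module K V] (A B : End K V) : Prop :=
  Tridiag A B ∧ Tridiag B A ∧
    ∀ W : Submodule K V, W.map A ≤ W → W.map B ≤ W → W = ⊥ ∨ W = ⊤

/-- Nonzero symmetric `(A, B)`-invariant bilinear form. -/
def IsGoodForm {K V : Type*} [Field K] [AddCommGroup V] [Module K V] (A B : End K V)
    (f : V →ₗ[K] V →ₗ[K] K) : Prop :=
  f ≠ 0 ∧ (∀ u v, f u v = f v u) ∧ (∀ u v, f (A u) v = f u (A v)) ∧ ∀ u v, f (B u) v = f u (B v)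

lemma tridiag_of_idem {V : Type*} [AddCommGroup V] [Module ℝ V] (A B : End ℝ V)
    (hA : ∀ v, A (A v) = A v) (v0 v1 : V) (h0 : v0 ≠ 0) (h1 : v1 ≠ 0) (e0 : A v0 = 0)
    (e1 : A v1 = v1) : Tridiag A B := by
  have hsum : ∀ v, v ∈ A.eigenspace 0 ⊔ A.eigenspace 1 := by
    intro v
    refine Submodule.mem_sup.2 ⟨v - A v, ?_, A v, ?_, by abel⟩
    · rw [End.mem_eigenspace_iff]; simp [hA]
    · rw [End.mem_eigenspace_iff]; simp [hA]
  refine ⟨?_, 1, ![0, 1], ?_, ?_, ?_⟩
  · rw [eq_top_iff]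
    intro v _
    exact (sup_le (le_iSup (fun μ => A.eigenspace μ) 0) (le_iSup (fun μ => A.eigenspace μ) 1))
      (hsum v)
  · intro i j h
    fin_cases i <;> fin_cases j <;> simp_all
  · intro μ
    constructor
    · intro h
      obtain ⟨v, hv⟩ := h.exists_hasEigenvector
      have e := hv.apply_eq_smul
      have e2 := hA v
      rw [e, map_smul, e, smul_smul] at e2
      have e3 : (μ * μ - μ) • v = 0 := by rw [sub_smul, e2, sub_self]
      rcases smul_eq_zero.1 e3 with h | h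
      · have : μ * (μ - 1) = 0 := by linear_combination h
        rcases mul_eq_zero.1 this with h | h
        · exact ⟨0, by simp [h]⟩
        · exact ⟨1, by simp [sub_eq_zero.1 h]⟩
      · exact absurd h hv.2
    · rintro ⟨i, rfl⟩
      fin_cases i
      · exact End.hasEigenvalue_of_hasEigenvector
          ⟨End.mem_eigenspace_iff.2 (by simp [e0]), h0⟩
      · exact End.hasEigenvalue_of_hasEigenvector
          ⟨End.mem_eigenspace_iff.2 (by simp [e1]), h1⟩
  · intro i w _
    refine (sup_le ?_ ?_ : A.eigenspace 0 ⊔ A.eigenspace 1 ≤ _) (hsum w)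
    · exact le_iSup_of_le ⟨0, by have := i.2; simp; omega⟩ (by simp)
    · exact le_iSup_of_le ⟨1, by simp⟩ (by simp)

def A : End ℝ (ℂ × ℂ) where
  toFun v := (0, v.1 + v.2)
  map_add' u v := by ext <;> simp; ring
  map_smul' c v := by ext <;> simp

def B : End ℝ (ℂ × ℂ) where
  toFun v := (Complex.I * v.2, v.2)
  map_add' u v := by ext <;> simp; ring
  map_smul' c v := by ext <;> simp; ring

lemma A_apply (v : ℂ × ℂ) : A v = (0, v.1 + v.2) := rfl
lemma B_apply (v : ℂ × ℂ) : B v = (Complex.I * v.2, v.2) := rfl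

noncomputable def form (l : ℂ →ₗ[ℝ] ℝ) : (ℂ × ℂ) →ₗ[ℝ] (ℂ × ℂ) →ₗ[ℝ] ℝ :=
  LinearMap.mk₂ ℝ (fun u v => l (Complex.I * u.1 * v.1 + u.1 * v.2 + u.2 * v.1 + u.2 * v.2))
    (fun u u' v => by rw [← map_add]; congr 1; simp; ring)
    (fun c u v => by rw [← map_smul]; congr 1; simp; ring)
    (fun u v v' => by rw [← map_add]; congr 1; simp; ring)
    (fun c u v => by rw [← map_smul]; congr 1; simp; ring)

lemma form_apply (l : ℂ →ₗ[ℝ] ℝ) (u v : ℂ × ℂ) :
    form l u v = l (Complex.I * u.1 * v.1 + u.1 * v.2 + u.2 * v.1 + u.2 * v.2) := rfl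

lemma good (l : ℂ →ₗ[ℝ] ℝ) (h : form l ≠ 0) : IsGoodForm A B (form l) := by
  refine ⟨h, fun u v => ?_, fun u v => ?_, fun u v => ?_⟩
  · rw [form_apply, form_apply]; congr 1; ring
  · rw [form_apply, form_apply]; congr 1; simp only [A_apply]; ring
  · rw [form_apply, form_apply]; congr 1; simp only [B_apply]
    linear_combination (u.2 * v.1 - u.1 * v.2) * Complex.I_mul_I

lemma irred (W : Submodule ℝ (ℂ × ℂ)) (hA : W.map A ≤ W) (hB : W.map B ≤ W) :
    W = ⊥ ∨ W = ⊤ := by
  have a : ∀ v ∈ W, A v ∈ W := fun v hv => hA ⟨v, hv, rfl⟩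
  have b : ∀ v ∈ W, B v ∈ W := fun v hv => hB ⟨v, hv, rfl⟩
  have hI : ∀ v ∈ W, (Complex.I * v.1, Complex.I * v.2) ∈ W := by
    intro v hv
    have h1 := W.sub_mem (a v hv) (b v hv)
    have h2 := W.sub_mem (b _ h1) (a _ h1)
    convert h2 using 1
    ext <;> simp [A_apply, B_apply]
  have hC : ∀ (c : ℂ), ∀ v ∈ W, (c * v.1, c * v.2) ∈ W := by
    intro c v hv
    have := W.add_mem (W.smul_mem c.re hv) (W.smul_mem c.im (hI v hv))
    convert this using 1
    ext
    · simp only [Prod.fst_add, Prod.smul_fst, Complex.real_smul]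
      linear_combination (-v.1) * Complex.re_add_im c
    · simp only [Prod.snd_add, Prod.smul_snd, Complex.real_smul]
      linear_combination (-v.2) * Complex.re_add_im c
  have key : ∀ v ∈ W, v.1 + v.2 ≠ 0 → W = ⊤ := by
    intro v hv h
    have h2 : ∀ c : ℂ, ((0 : ℂ), c) ∈ W := by
      intro c
      have := hC (c / (v.1 + v.2)) _ (a v hv)
      simpa [A_apply, h] using this
    rw [eq_top_iff]
    intro w _
    have := W.add_mem (W.sub_mem (b _ (h2 (-Complex.I * w.1))) (h2 (-Complex.I * w.1))) (h2 w.2)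
    convert this using 1
    ext
    · simp only [B_apply, Prod.fst_add, Prod.fst_sub]
      linear_combination w.1 * Complex.I_mul_I
    · simp [B_apply]
  by_cases hW : W = ⊥
  · exact Or.inl hW
  · right
    obtain ⟨v, hv, hv0⟩ := (Submodule.ne_bot_iff W).1 hW
    by_cases h : v.1 + v.2 = 0
    · refine key _ (b v hv) ?_
      simp only [B_apply]
      intro h'
      have h2 : v.2 = 0 := by
        have : (Complex.I + 1) * v.2 = 0 := by linear_combination h'
        rcases mul_eq_zero.1 this with h | h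
        · have := congrArg Complex.re h
          simp at this
        · exact h
      exact hv0 (Prod.ext (by simpa [h2] using h) h2)
    · exact key v hv h

theorem result : ∃ (V : Type) (_ : AddCommGroup V) (_ : Module ℝ V), finrank ℝ V = 4 ∧
    ∃ A B : End ℝ V, IsTDPair A B ∧ ∃ f g : V →ₗ[ℝ] V →ₗ[ℝ] ℝ, IsGoodForm A B f ∧
      IsGoodForm A B g ∧ (∀ c : ℝ, f ≠ c • g) ∧ ∀ c : ℝ, g ≠ c • f := by
  have r1 : form Complex.reLm (0, 1) (0, 1) = 1 := by simp [form_apply]
  have r2 : form Complex.imLm (0, 1) (0, 1) = 0 := by simp [form_apply]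
  have r3 : form Complex.reLm (1, 0) (1, 0) = 0 := by simp [form_apply]
  have r4 : form Complex.imLm (1, 0) (1, 0) = 1 := by simp [form_apply]
  refine ⟨ℂ × ℂ, inferInstance, inferInstance, by simp, A, B, ⟨?_, ?_, irred⟩,
    form Complex.reLm, form Complex.imLm, good _ ?_, good _ ?_, ?_, ?_⟩
  · exact tridiag_of_idem A B (fun v => by simp [A_apply]) (1, -1) (0, 1) (by simp) (by simp)
      (by simp [A_apply]) (by simp [A_apply])
  · exact tridiag_of_idem B A (fun v => by simp [B_apply]) (1, 0) (Complex.I, 1) (by simp)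
      (by simp) (by simp [B_apply]) (by simp [B_apply])
  · intro h; rw [h] at r1; simp at r1
  · intro h; rw [h] at r4; simp at r4
  · intro c h; rw [h] at r1; simp [r2] at r1
  · intro c h; rw [h] at r4; simp [r3] at r4

end Pool.Agent.Results.MP_8ac8bf_al.Counterexample
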